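import Pool.Agent.Helper69.FF.St

/-!
# Project FF (MP_d684b1_an), module SG: random signs
-/

set_option autoImplicit false

namespace Pool.Agent.Helper40.FF

open _root_.FF _root_.DV
open scoped BigOperators

theorem sum_exp {M : ℕ} (a : Fin M → ℝ) :
    ∑ ω : Fin M → Bool, Real.exp (∑ l, sg (ω l) * a l) ≤ 2 ^ M * Real.exp ((∑ l, a l ^ 2) / 2) := by
  have h1 : ∑ ω : Fin M → Bool, Real.exp (∑ l, sg (ω l) * a l) =
      ∏ l, ∑ b : Bool, Real.exp (sg b * a l) := by
    rw [Finset.prod_univ_sum, Fintype.piFinset_univ]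
    refine Finset.sum_congr rfl fun ω _ => ?_
    rw [Real.exp_sum]
  rw [h1]
  have h2 : ∀ l ∈ (Finset.univ : Finset (Fin M)), ∑ b : Bool, Real.exp (sg b * a l) ≤
      2 * Real.exp (a l ^ 2 / 2) := by
    intro l _
    have h3 := Real.cosh_le_exp_half_sq (a l)
    rw [Real.cosh_eq] at h3
    have h4 : ∑ b : Bool, Real.exp (sg b * a l) = Real.exp (a l) + Real.exp (-a l) := by
      simp [sg]
    rw [h4]
    linarith
  refine (Finset.prod_le_prod (fun l _ => Finset.sum_nonneg fun b _ => (Real.exp_pos _).le) h2).trans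
    ?_
  rw [Finset.prod_mul_distrib, Finset.prod_const, Finset.card_univ, Fintype.card_fin,
    ← Real.exp_sum, Finset.sum_div]

theorem hSG : StSG := by
  intro J _ M c v τ hv hτ hc hs
  by_contra hcon
  push Not at hcon
  set lam : ℝ := τ / v with hlam
  have hl : 0 < lam := div_pos hτ hv
  have h1 : ∀ ω : Fin M → Bool, 1 ≤ ∑ j, Real.exp (-(lam * τ)) *
      (Real.exp (∑ l, sg (ω l) * (lam * c j l)) + Real.exp (∑ l, sg (ω l) * (-lam * c j l))) := by
    intro ω
    obtain ⟨j, hj⟩ := hcon ω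
    refine le_trans ?_ (Finset.single_le_sum (f := fun j => Real.exp (-(lam * τ)) *
      (Real.exp (∑ l, sg (ω l) * (lam * c j l)) + Real.exp (∑ l, sg (ω l) * (-lam * c j l))))
      (fun i _ => by positivity) (Finset.mem_univ j))
    have e1 : ∑ l, sg (ω l) * (lam * c j l) = lam * ∑ l, sg (ω l) * c j l := by
      rw [Finset.mul_sum]
      exact Finset.sum_congr rfl fun l _ => by ring
    have e2 : ∑ l, sg (ω l) * (-lam * c j l) = -(lam * ∑ l, sg (ω l) * c j l) := by
      rw [Finset.mul_sum, ← Finset.sum_neg_distrib]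
      exact Finset.sum_congr rfl fun l _ => by ring
    simp only [e1, e2]
    set S := ∑ l, sg (ω l) * c j l with hS
    rw [mul_add, ← Real.exp_add, ← Real.exp_add]
    rcases abs_cases S with ⟨h2, _⟩ | ⟨h2, _⟩
    · rw [h2] at hj
      have h3 : 1 ≤ Real.exp (-(lam * τ) + lam * S) := by
        rw [Real.one_le_exp_iff]
        nlinarith
      linarith [Real.exp_pos (-(lam * τ) + -(lam * S))]
    · rw [h2] at hj
      have h3 : 1 ≤ Real.exp (-(lam * τ) + -(lam * S)) := by
        rw [Real.one_le_exp_iff]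
        nlinarith
      linarith [Real.exp_pos (-(lam * τ) + lam * S)]
  have h2 : (2 : ℝ) ^ M ≤ ∑ ω : Fin M → Bool, ∑ j, Real.exp (-(lam * τ)) *
      (Real.exp (∑ l, sg (ω l) * (lam * c j l)) + Real.exp (∑ l, sg (ω l) * (-lam * c j l))) := by
    have h3 := Finset.sum_le_sum fun (ω : Fin M → Bool) (_ : ω ∈ Finset.univ) => h1 ω
    rw [Finset.sum_const, Finset.card_univ, nsmul_eq_mul, mul_one] at h3
    simpa using h3
  rw [Finset.sum_comm] at h2
  have h3 : ∀ j ∈ (Finset.univ : Finset J), ∑ ω : Fin M → Bool, Real.exp (-(lam * τ)) *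
      (Real.exp (∑ l, sg (ω l) * (lam * c j l)) + Real.exp (∑ l, sg (ω l) * (-lam * c j l))) ≤
      2 * (2 : ℝ) ^ M * Real.exp (-(τ ^ 2 / (2 * v))) := by
    intro j _
    rw [← Finset.mul_sum, Finset.sum_add_distrib]
    have e1 := sum_exp fun l => lam * c j l
    have e2 := sum_exp fun l => -lam * c j l
    have e3 : (∑ l, (lam * c j l) ^ 2) / 2 ≤ lam ^ 2 * v / 2 := by
      have : ∑ l, (lam * c j l) ^ 2 = lam ^ 2 * ∑ l, c j l ^ 2 := by
        rw [Finset.mul_sum]
        exact Finset.sum_congr rfl fun l _ => by ring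
      rw [this]
      have := hc j
      gcongr
    have e4 : (∑ l, (-lam * c j l) ^ 2) / 2 ≤ lam ^ 2 * v / 2 := by
      have : ∑ l, (-lam * c j l) ^ 2 = ∑ l, (lam * c j l) ^ 2 :=
        Finset.sum_congr rfl fun l _ => by ring
      rw [this]
      exact e3
    have e5 : Real.exp (-(τ ^ 2 / (2 * v))) =
        Real.exp (-(lam * τ)) * Real.exp (lam ^ 2 * v / 2) := by
      rw [← Real.exp_add, hlam]
      congr 1
      field_simp
      ring
    rw [e5]
    have e6 : ∑ ω : Fin M → Bool, Real.exp (∑ l, sg (ω l) * (lam * c j l)) ≤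
        2 ^ M * Real.exp (lam ^ 2 * v / 2) :=
      e1.trans (mul_le_mul_of_nonneg_left (Real.exp_le_exp.2 e3) (by positivity))
    have e7 : ∑ ω : Fin M → Bool, Real.exp (∑ l, sg (ω l) * (-lam * c j l)) ≤
        2 ^ M * Real.exp (lam ^ 2 * v / 2) :=
      e2.trans (mul_le_mul_of_nonneg_left (Real.exp_le_exp.2 e4) (by positivity))
    calc Real.exp (-(lam * τ)) * (∑ ω : Fin M → Bool, Real.exp (∑ l, sg (ω l) * (lam * c j l)) +
          ∑ ω : Fin M → Bool, Real.exp (∑ l, sg (ω l) * (-lam * c j l)))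
        ≤ Real.exp (-(lam * τ)) * (2 ^ M * Real.exp (lam ^ 2 * v / 2) +
          2 ^ M * Real.exp (lam ^ 2 * v / 2)) :=
          mul_le_mul_of_nonneg_left (add_le_add e6 e7) (Real.exp_pos _).le
      _ = _ := by ring
  have h4 := h2.trans (Finset.sum_le_sum h3)
  rw [Finset.sum_const, Finset.card_univ, nsmul_eq_mul] at h4
  have h5 : (0 : ℝ) < 2 ^ M := by positivity
  nlinarith

theorem pSG : StSG := hSG

end Pool.Agent.Helper40.FF
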